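import Pool.Agent.TH823.SF.Tor

/-! Local uniformity of the Liouville function for linear sequences on tori (nilmanifolds of step one), with
the supremum over a set of rotations of dimension less than one half, which may depend on the length of the
window. -/

set_option autoImplicit false

open Finset

namespace Pool.Agent.Results.MP_028aa5_nt.SmallRotationSets

/-- The covering numbers of the subset `E` of the torus `ℝ^d/ℤ^d` at the scales `1 / n`, `n ≤ H`, are at most
`C n ^ s`: for each `n` with `1 ≤ n ≤ H` there is a set of at most `C n ^ s` points such that each point of `E`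
is within `1 / n` of one of them (in the maximum metric). -/
def Covering {d : ℕ} (H : ℕ) (E : Set (Fin d → UnitAddCircle)) (C s : ℝ) : Prop :=
  ∀ n : ℕ, 1 ≤ n → n ≤ H → ∃ S : Finset (Fin d → UnitAddCircle), (S.card : ℝ) ≤ C * (n : ℝ) ^ s ∧
    ∀ g ∈ E, ∃ y ∈ S, dist g y ≤ 1 / n

/-- The supremum of `|∑_{x < n ≤ x + H} λ(n) F(y + n g)|` over all `g` in `E` and all points `y` of the
torus. -/
noncomputable def windowSup {d : ℕ} (E : Set (Fin d → UnitAddCircle)) (F : C(Fin d → UnitAddCircle, ℂ))
    (x H : ℕ) : ℝ :=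
  ⨆ p : E × (Fin d → UnitAddCircle), ‖∑ n ∈ Ioc x (x + H), (-1 : ℂ) ^ ArithmeticFunction.cardFactors n *
    F (p.2 + n • (p.1 : Fin d → UnitAddCircle))‖

/-- **Local uniformity of the Liouville function for linear sequences on tori, for small sets of rotations.**
Let `s < 1/2` and let `F` be continuous on the torus `ℝ^d/ℤ^d`. For all `X ≥ H ≥ H₀(F, C, s, ε)` and all sets `E`
of rotations with covering numbers at most `C n ^ s` at the scales `1 / n`, `n ≤ H`, the sum over
`X ≤ x < 2 X` of `sup |∑_{x < n ≤ x + H} λ(n) F(y + n g)|` over `g ∈ E` and all `y` is at most `ε H X`; the same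
holds for the sum over all `x < X`. -/
theorem result (d : ℕ) (F : C(Fin d → UnitAddCircle, ℂ)) (C s : ℝ) (hs : s < 1 / 2) (ε : ℝ) (hε : 0 < ε) :
    ∃ H₀ : ℕ, ∀ X H : ℕ, H₀ ≤ H → H ≤ X → ∀ E : Set (Fin d → UnitAddCircle), Covering H E C s →
      ∑ x ∈ Ico X (2 * X), windowSup E F x H ≤ ε * H * X ∧
      ∑ x ∈ range X, windowSup E F x H ≤ ε * H * X := by
  obtain ⟨H0, key⟩ := Pool.Agent.TH823.SF.avgT2 F C s hs (ε / 2) (by positivity)
  refine ⟨H0, fun X H hH hX E hE => ⟨?_, ?_⟩⟩
  · have h3 := key (2 * X) H hH (by omega) E hE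
    refine le_trans ?_ (h3.trans (le_of_eq (by push_cast; ring)))
    apply sum_le_sum_of_subset_of_nonneg
    · intro x hx
      rw [mem_Ico] at hx
      rw [mem_range]; omega
    · intro x _ _
      exact Real.iSup_nonneg fun _ => norm_nonneg _
  · refine (key X H hH hX E hE).trans ?_
    have : (0 : ℝ) ≤ ε * H * X := by positivity
    linarith

end Pool.Agent.Results.MP_028aa5_nt.SmallRotationSets
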